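import Pool.Agent.L7h70.SB.Stm0

set_option autoImplicit false

open Set Filter Topology MeasureTheory Polynomial
open scoped Real ContDiff

noncomputable section

namespace Pool.Agent.L7h56.SB

open Pool.Agent.L7h70.SB

lemma cd_deriv {f : ℝ → ℝ} (hf : ContDiff ℝ ∞ f) : ContDiff ℝ ∞ (deriv f) := by
  have h1 : ContDiff ℝ (∞ + 1) f := by simpa using hf
  exact ((contDiff_succ_iff_deriv).1 h1).2.2

lemma cd_hd {f : ℝ → ℝ} (hf : ContDiff ℝ ∞ f) (t : ℝ) : HasDerivAt f (deriv f t) t :=
  (hf.differentiable (by simp) t).hasDerivAt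

theorem s_DEC : S_DEC := by
  intro f V a h K hh hK hf hB hV b hb
  obtain ⟨B, hB⟩ := hB
  have hf1 := cd_deriv hf
  have hf2 := cd_deriv hf1
  set q : ℝ → ℝ := fun t => - (f t * deriv f t) with hq
  have dq : ∀ t, HasDerivAt q (-(deriv f t * deriv f t + f t * deriv (deriv f) t)) t := by
    intro t
    exact ((cd_hd hf t).mul (cd_hd hf1 t)).neg
  have df2 : ∀ t, HasDerivAt (fun t => f t ^ 2) (-2 * q t) t := by
    intro t
    have := (cd_hd hf t).pow 2
    refine this.congr_deriv ?_
    simp only [hq]; push_cast; ring
  have hcq : Continuous q := (hf.continuous.mul hf1.continuous).neg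
  -- the inequality for the derivative
  have key : ∀ t, a ≤ t → -(deriv f t * deriv f t + f t * deriv (deriv f) t) ≤
      -(deriv f t ^ 2 + K ^ 2 * f t ^ 2) := by
    intro t ht
    obtain ⟨h1, h2⟩ := hV t ht
    rw [h1]
    nlinarith [sq_nonneg (f t), mul_le_mul_of_nonneg_right h2 (sq_nonneg (f t))]
  have key2 : ∀ t, -(deriv f t ^ 2 + K ^ 2 * f t ^ 2) ≤ -2 * K * |q t| := by
    intro t
    have : |q t| = |f t| * |deriv f t| := by
      simp only [hq]; rw [abs_neg, abs_mul]
    rw [this]
    have h1 : f t ^ 2 = |f t| ^ 2 := (sq_abs _).symm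
    have h2 : deriv f t ^ 2 = |deriv f t| ^ 2 := (sq_abs _).symm
    rw [h1, h2]
    nlinarith [sq_nonneg (|deriv f t| - K * |f t|)]
  -- q antitone on [a, ∞)
  have hanti : AntitoneOn q (Ici a) := by
    apply antitoneOn_of_deriv_nonpos (convex_Ici a) hcq.continuousOn
    · intro t _
      exact (dq t).differentiableAt.differentiableWithinAt
    · intro t ht
      rw [interior_Ici] at ht
      rw [(dq t).deriv]
      have h1 := key t (le_of_lt ht)
      have h2 := key2 t
      have h3 : 0 ≤ K * |q t| := by positivity
      linarith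
  -- q nonneg
  have hpos : ∀ t, a ≤ t → 0 ≤ q t := by
    intro t0 ht0
    by_contra hneg
    push Not at hneg
    have hmono : ∀ t, t0 ≤ t → f t0 ^ 2 + (-2 * q t0) * (t - t0) ≤ f t ^ 2 := by
      intro t ht
      have := image_le_of_deriv_right_le_deriv_boundary (f := fun t => f t0 ^ 2 + (-2 * q t0) * (t - t0))
        (f' := fun _ => -2 * q t0) (a := t0) (b := t) (B := fun t => f t ^ 2) (B' := fun t => -2 * q t)
        (by fun_prop) (by
          intro x _
          have h1 : HasDerivAt (fun t => f t0 ^ 2 + (-2 * q t0) * (t - t0)) (-2 * q t0) x := by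
            have := (((hasDerivAt_id x).sub_const t0).const_mul (-2 * q t0)).const_add (f t0 ^ 2)
            simpa using this
          exact h1.hasDerivWithinAt) (by simp)
        ((hf.continuous.pow 2).continuousOn) (by
          intro x _
          exact (df2 x).hasDerivWithinAt) (by
          intro x hx
          have := hanti (show t0 ∈ Ici a from ht0) (show x ∈ Ici a from le_trans ht0 hx.1) hx.1
          linarith)
      exact this ⟨ht, le_rfl⟩
    have hc : 0 < -2 * q t0 := by linarith
    have h1 := hmono (t0 + (B ^ 2 + 1) / (-2 * q t0)) (by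
      have : 0 < (B ^ 2 + 1) / (-2 * q t0) := by positivity
      linarith)
    have h2 : (-2 * q t0) * (t0 + (B ^ 2 + 1) / (-2 * q t0) - t0) = B ^ 2 + 1 := by
      rw [add_sub_cancel_left]
      exact mul_div_cancel₀ _ hc.ne'
    rw [h2] at h1
    have h3 := hB (t0 + (B ^ 2 + 1) / (-2 * q t0))
    have h4 : f (t0 + (B ^ 2 + 1) / (-2 * q t0)) ^ 2 ≤ B ^ 2 := by
      rw [← sq_abs (f _)]
      exact pow_le_pow_left₀ (abs_nonneg _) h3 2
    nlinarith [sq_nonneg (f t0)]
  -- exponential decay
  have hexp : AntitoneOn (fun t => q t * Real.exp (2 * K * t)) (Ici a) := by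
    have hd : ∀ t, HasDerivAt (fun t => q t * Real.exp (2 * K * t))
        (-(deriv f t * deriv f t + f t * deriv (deriv f) t) * Real.exp (2 * K * t) +
          q t * (Real.exp (2 * K * t) * (2 * K))) t := by
      intro t
      refine (dq t).mul ?_
      have := ((hasDerivAt_id t).const_mul (2 * K)).exp
      simpa using this
    apply antitoneOn_of_deriv_nonpos (convex_Ici a)
    · exact (hcq.mul (by fun_prop)).continuousOn
    · intro t _
      exact (hd t).differentiableAt.differentiableWithinAt
    · intro t ht
      rw [interior_Ici] at ht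
      rw [(hd t).deriv]
      have h1 := key t (le_of_lt ht)
      have h2 := key2 t
      rw [abs_of_nonneg (hpos t (le_of_lt ht))] at h2
      have h3 : 0 < Real.exp (2 * K * t) := Real.exp_pos _
      nlinarith
  -- bound at a + 2 h
  have hI : ∀ t ∈ Icc a (a + h), 2 * h * q (a + 2 * h) ≤ f t ^ 2 := by
    intro t ht
    have hmono : 2 * q (a + 2 * h) * ((t + h) - t) ≤ f t ^ 2 - f (t + h) ^ 2 := by
      have := image_le_of_deriv_right_le_deriv_boundary
        (f := fun x => f t ^ 2 + 2 * q (a + 2 * h) * (x - t) - f t ^ 2)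
        (f' := fun _ => 2 * q (a + 2 * h)) (a := t) (b := t + h) (B := fun x => f t ^ 2 - f x ^ 2)
        (B' := fun x => 2 * q x)
        (by fun_prop) (by
          intro x _
          have h1 : HasDerivAt (fun x => f t ^ 2 + 2 * q (a + 2 * h) * (x - t) - f t ^ 2)
              (2 * q (a + 2 * h)) x := by
            have := ((((hasDerivAt_id x).sub_const t).const_mul (2 * q (a + 2 * h))).const_add
              (f t ^ 2)).sub_const (f t ^ 2)
            simpa using this
          exact h1.hasDerivWithinAt) (by simp)
        ((continuous_const.sub (hf.continuous.pow 2)).continuousOn) (by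
          intro x _
          have := (df2 x).const_sub (f t ^ 2)
          refine (this.congr_deriv ?_).hasDerivWithinAt
          ring) (by
          intro x hx
          have := hanti (show x ∈ Ici a from le_trans ht.1 hx.1)
            (show a + 2 * h ∈ Ici a from by simp only [mem_Ici]; linarith)
            (by linarith [hx.2, ht.2])
          linarith)
      have h2 := this (show t + h ∈ Icc t (t + h) from ⟨by linarith, le_rfl⟩)
      linarith
    nlinarith [sq_nonneg (f (t + h))]
  have hint : 2 * h * q (a + 2 * h) * h ≤ ∫ t in a..(a + h), f t ^ 2 := by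
    have h1 : ∫ t in a..(a + h), (2 * h * q (a + 2 * h)) = 2 * h * q (a + 2 * h) * h := by
      rw [intervalIntegral.integral_const]
      simp only [smul_eq_mul]; ring
    rw [← h1]
    apply intervalIntegral.integral_mono_on (by linarith)
    · exact intervalIntegrable_const
    · exact ((hf.continuous.pow 2).intervalIntegrable _ _)
    · exact hI
  -- final
  have hfin : ∫ t in (a + 3 * h)..b, (deriv f t ^ 2 + K ^ 2 * f t ^ 2) ≤ q (a + 3 * h) - q b := by
    have h1 : ∫ t in (a + 3 * h)..b, (deriv f t * deriv f t + f t * deriv (deriv f) t) =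
        q (a + 3 * h) - q b := by
      have := intervalIntegral.integral_eq_sub_of_hasDerivAt (a := a + 3 * h) (b := b) (f := fun t => - q t)
        (f' := fun t => deriv f t * deriv f t + f t * deriv (deriv f) t) (by
          intro t _
          refine (dq t).neg.congr_deriv ?_
          ring) (by
          apply Continuous.intervalIntegrable
          exact (hf1.continuous.mul hf1.continuous).add (hf.continuous.mul hf2.continuous))
      rw [this]; ring
    rw [← h1]
    apply intervalIntegral.integral_mono_on hb
    · apply Continuous.intervalIntegrable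
      exact (hf1.continuous.pow 2).add (continuous_const.mul (hf.continuous.pow 2))
    · apply Continuous.intervalIntegrable
      exact (hf1.continuous.mul hf1.continuous).add (hf.continuous.mul hf2.continuous)
    · intro t ht
      have := key t (by linarith [ht.1])
      linarith
  have hqb : 0 ≤ q b := hpos b (by linarith)
  have hstep : q (a + 3 * h) ≤ Real.exp (-2 * K * h) * q (a + 2 * h) := by
    have h1 := hexp (show a + 2 * h ∈ Ici a from by simp only [mem_Ici]; linarith)
      (show a + 3 * h ∈ Ici a from by simp only [mem_Ici]; linarith) (by linarith)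
    simp only at h1
    have h2 : Real.exp (2 * K * (a + 2 * h)) = Real.exp (2 * K * (a + 3 * h)) * Real.exp (-2 * K * h) := by
      rw [← Real.exp_add]; congr 1; ring
    rw [h2] at h1
    have h3 : 0 < Real.exp (2 * K * (a + 3 * h)) := Real.exp_pos _
    have h4 : q (a + 3 * h) * Real.exp (2 * K * (a + 3 * h)) ≤
        (Real.exp (-2 * K * h) * q (a + 2 * h)) * Real.exp (2 * K * (a + 3 * h)) := by
      linarith
    exact le_of_mul_le_mul_right h4 h3
  have h5 : q (a + 2 * h) ≤ 1 / (2 * h ^ 2) * ∫ t in a..(a + h), f t ^ 2 := by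
    rw [div_mul_eq_mul_div, one_mul, le_div_iff₀ (by positivity)]
    calc q (a + 2 * h) * (2 * h ^ 2) = 2 * h * q (a + 2 * h) * h := by ring
      _ ≤ _ := hint
  have h6 : 0 < Real.exp (-2 * K * h) := Real.exp_pos _
  calc ∫ t in (a + 3 * h)..b, (deriv f t ^ 2 + K ^ 2 * f t ^ 2) ≤ q (a + 3 * h) := by linarith
    _ ≤ Real.exp (-2 * K * h) * q (a + 2 * h) := hstep
    _ ≤ Real.exp (-2 * K * h) * (1 / (2 * h ^ 2) * ∫ t in a..(a + h), f t ^ 2) :=
        mul_le_mul_of_nonneg_left h5 h6.le
    _ = _ := by ring

end Pool.Agent.L7h56.SB
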