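import Pool.Agent.L7h70.SB.Stm0

set_option autoImplicit false

open Set Filter Topology MeasureTheory Polynomial
open scoped Real ContDiff

noncomputable section

namespace Pool.Agent.L7h56.SB

open Pool.Agent.L7h70.SB

/-- iterated derivatives of `(X² - 1)^l` -/
def uu (l k : ℕ) : Polynomial ℝ := derivative^[k] ((X ^ 2 - 1) ^ l)

lemma uu_succ (l k : ℕ) : uu l (k + 1) = derivative (uu l k) := by
  unfold uu
  rw [Function.iterate_succ_apply']

lemma uu_one (l : ℕ) : (X ^ 2 - 1) * uu l 1 = C (2 * (l : ℝ)) * X * uu l 0 := by
  rcases Nat.eq_zero_or_pos l with h | h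
  · subst h
    simp [uu]
  · obtain ⟨j, rfl⟩ : ∃ j, l = j + 1 := ⟨l - 1, by omega⟩
    simp only [uu, Function.iterate_one, Function.iterate_zero, id_eq]
    rw [derivative_pow]
    simp only [Nat.add_sub_cancel, derivative_sub, derivative_X_pow, derivative_one, sub_zero]
    push_cast
    simp only [map_mul, map_add, map_one, map_natCast, map_ofNat]
    ring

lemma uu_rec (l k : ℕ) : (X ^ 2 - 1) * uu l (k + 2) +
    C (2 * ((k : ℝ) + 1 - l)) * X * uu l (k + 1) + C (((k : ℝ) + 1) * (k - 2 * l)) * uu l k = 0 := by
  induction k with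
  | zero =>
    have h := congrArg derivative (uu_one l)
    rw [derivative_mul, derivative_mul, derivative_mul, derivative_C, derivative_X] at h
    rw [← uu_succ, ← uu_succ] at h
    simp only [derivative_sub, derivative_X_pow, derivative_one, sub_zero] at h
    push_cast at h ⊢
    simp only [map_mul, map_add, map_sub, map_one, map_natCast, map_ofNat, map_zero] at h ⊢
    simp only [zero_add] at h ⊢
    linear_combination h
  | succ k ih =>
    have h := congrArg derivative ih
    simp only [derivative_add, derivative_mul, derivative_C, derivative_X, derivative_sub,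
      derivative_X_pow, derivative_one, derivative_zero, sub_zero, zero_mul, zero_add] at h
    rw [← uu_succ, ← uu_succ, ← uu_succ] at h
    push_cast at h ⊢
    simp only [map_mul, map_add, map_sub, map_one, map_natCast, map_ofNat, map_zero] at h ⊢
    have e1 : k + 1 + 2 = k + 2 + 1 := rfl
    have e2 : k + 1 + 1 = k + 2 := rfl
    rw [e1, e2]
    rw [e2] at h
    linear_combination h

theorem s_LEG : S_LEG := by
  intro l m hml
  refine ⟨uu l (l + m), ?_, ?_⟩
  · intro h0
    have hm : (X ^ 2 - 1 : Polynomial ℝ).Monic := by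
      have := monic_X_pow_sub_C (1 : ℝ) (n := 2) (by norm_num)
      simpa using this
    have hdeg : ((X ^ 2 - 1 : Polynomial ℝ) ^ l).natDegree = 2 * l := by
      rw [hm.natDegree_pow]
      have : (X ^ 2 - 1 : Polynomial ℝ).natDegree = 2 := by
        have := natDegree_X_pow_sub_C (n := 2) (r := (1 : ℝ))
        simpa using this
      rw [this]; ring
    have hc := coeff_iterate_derivative (k := l + m) ((X ^ 2 - 1 : Polynomial ℝ) ^ l) (l - m)
    have h1 : l - m + (l + m) = 2 * l := by omega
    rw [h1] at hc
    have h2 : ((X ^ 2 - 1 : Polynomial ℝ) ^ l).coeff (2 * l) = 1 := by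
      have := (hm.pow l).coeff_natDegree
      rwa [hdeg] at this
    rw [h2] at hc
    have h3 : (derivative^[l + m] ((X ^ 2 - 1 : Polynomial ℝ) ^ l)).coeff (l - m) = 0 := by
      have : derivative^[l + m] ((X ^ 2 - 1 : Polynomial ℝ) ^ l) = 0 := h0
      rw [this]; simp
    rw [h3] at hc
    have h4 : (2 * l).descFactorial (l + m) ≠ 0 := by
      rw [Ne, Nat.descFactorial_eq_zero_iff_lt]
      omega
    simp at hc
    apply h4
    exact_mod_cast hc.symm
  · have h := uu_rec l (l + m)
    rw [← uu_succ, ← uu_succ]
    push_cast at h ⊢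
    simp only [map_mul, map_add, map_sub, map_one, map_natCast, map_ofNat, map_zero] at h ⊢
    have e2 : l + m + 1 + 1 = l + m + 2 := rfl
    rw [e2]
    linear_combination -h

end Pool.Agent.L7h56.SB
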