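import Pool.Agent.L7h56.SB.Leg

set_option autoImplicit false

open Set Filter Topology MeasureTheory Polynomial
open scoped Real ContDiff

noncomputable section

namespace Pool.Agent.L7h56.SB

open Pool.Agent.L7h70.SB

lemma hd_tanh (t : ℝ) : HasDerivAt Real.tanh ((Real.cosh t)⁻¹ ^ 2) t := by
  have h0 : Real.cosh t ≠ 0 := (Real.cosh_pos t).ne'
  have h := (Real.hasDerivAt_sinh t).div (Real.hasDerivAt_cosh t) h0
  have e : Real.tanh = fun t => Real.sinh t / Real.cosh t := by
    funext t; exact Real.tanh_eq_sinh_div_cosh t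
  rw [e]
  refine h.congr_deriv ?_
  have := Real.cosh_sq t
  field_simp
  nlinarith

lemma hd_sech (t : ℝ) : HasDerivAt (fun t => (Real.cosh t)⁻¹)
    (-((Real.cosh t)⁻¹ * Real.tanh t)) t := by
  have h0 : Real.cosh t ≠ 0 := (Real.cosh_pos t).ne'
  have h := (Real.hasDerivAt_cosh t).inv h0
  refine h.congr_deriv ?_
  rw [Real.tanh_eq_sinh_div_cosh]
  field_simp

lemma sech_sq (t : ℝ) : (Real.cosh t)⁻¹ ^ 2 = 1 - Real.tanh t ^ 2 := by
  have h0 : Real.cosh t ≠ 0 := (Real.cosh_pos t).ne'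
  rw [Real.tanh_eq_sinh_div_cosh]
  have := Real.cosh_sq t
  field_simp
  nlinarith

lemma tanh_lt (t : ℝ) : Real.tanh t ∈ Icc (-1 : ℝ) 1 := by
  have h := sech_sq t
  have h1 : 0 ≤ (Real.cosh t)⁻¹ ^ 2 := by positivity
  have h2 : Real.tanh t ^ 2 ≤ 1 := by linarith
  exact abs_le.1 (by rw [← sq_le_one_iff_abs_le_one]; exact h2)

lemma cd_tanh : ContDiff ℝ ∞ Real.tanh := by
  have e : Real.tanh = fun t => Real.sinh t / Real.cosh t := by
    funext t; exact Real.tanh_eq_sinh_div_cosh t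
  rw [e]
  exact Real.contDiff_sinh.div Real.contDiff_cosh (fun t => (Real.cosh_pos t).ne')

/-- `f = cosh^(-m) Q(tanh)` -/
def ff (m : ℕ) (Q : Polynomial ℝ) (t : ℝ) : ℝ := (Real.cosh t)⁻¹ ^ m * Q.eval (Real.tanh t)

lemma cd_ff (m : ℕ) (Q : Polynomial ℝ) : ContDiff ℝ ∞ (ff m Q) := by
  unfold ff
  refine ContDiff.mul ?_ ?_
  · exact (Real.contDiff_cosh.inv (fun t => (Real.cosh_pos t).ne')).pow m
  · have h := (Q.contDiff_aeval (𝕜 := ℝ) ∞).comp cd_tanh
    simpa [Function.comp_def, Polynomial.coe_aeval_eq_eval] using h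

lemma hd_ff (m : ℕ) (Q : Polynomial ℝ) (t : ℝ) : HasDerivAt (ff m Q)
    (ff m ((1 - X ^ 2) * derivative Q - C (m : ℝ) * X * Q) t) t := by
  unfold ff
  have h1 : HasDerivAt (fun t => (Real.cosh t)⁻¹ ^ m)
      ((m : ℝ) * (Real.cosh t)⁻¹ ^ (m - 1) * (-((Real.cosh t)⁻¹ * Real.tanh t))) t :=
    (hd_sech t).pow m
  have h2 : HasDerivAt (fun t => Q.eval (Real.tanh t))
      ((derivative Q).eval (Real.tanh t) * (Real.cosh t)⁻¹ ^ 2) t :=
    (Q.hasDerivAt (Real.tanh t)).comp t (hd_tanh t)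
  refine (h1.mul h2).congr_deriv ?_
  rw [sech_sq]
  simp only [eval_sub, eval_mul, eval_one, eval_pow, eval_X, eval_C]
  rcases Nat.eq_zero_or_pos m with h | h
  · subst h; simp; ring
  · obtain ⟨j, rfl⟩ : ∃ j, m = j + 1 := ⟨m - 1, by omega⟩
    simp only [Nat.add_sub_cancel]
    push_cast
    ring

theorem s_ODE : S_ODE := by
  intro l m hm hml
  obtain ⟨Q, hQ0, hQ⟩ := s_LEG l m hml
  refine ⟨ff m Q, cd_ff m Q, ?_, ?_, ?_⟩
  · obtain ⟨B, hB⟩ := (isCompact_Icc (a := (-1 : ℝ)) (b := 1)).exists_bound_of_continuousOn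
      (f := fun x => Q.eval x) Q.continuous.continuousOn
    refine ⟨B, fun t => ?_⟩
    have h1 := hB _ (tanh_lt t)
    rw [Real.norm_eq_abs] at h1
    unfold ff
    rw [abs_mul]
    have h2 : |(Real.cosh t)⁻¹ ^ m| ≤ 1 := by
      rw [abs_of_nonneg (by positivity)]
      exact pow_le_one₀ (by positivity) (inv_le_one_of_one_le₀ (Real.one_le_cosh t))
    calc |(Real.cosh t)⁻¹ ^ m| * |eval (Real.tanh t) Q| ≤ 1 * |eval (Real.tanh t) Q| :=
          mul_le_mul_of_nonneg_right h2 (abs_nonneg _)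
      _ ≤ B := by linarith
  · intro a b hab
    by_contra hcon
    push Not at hcon
    apply hQ0
    apply Polynomial.eq_zero_of_infinite_isRoot
    have hinf : (Real.tanh '' Ioo a b).Infinite := by
      apply (Ioo_infinite hab).image
      have hmono : StrictMono Real.tanh := by
        apply strictMono_of_deriv_pos
        intro t
        rw [(hd_tanh t).deriv]
        have := Real.cosh_pos t
        positivity
      exact hmono.injective.injOn
    refine hinf.mono ?_
    rintro _ ⟨t, ht, rfl⟩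
    have h := hcon t ht
    unfold ff at h
    have h2 : (Real.cosh t)⁻¹ ^ m ≠ 0 := by
      have := Real.cosh_pos t
      positivity
    exact (mul_eq_zero.1 h).resolve_left h2
  · intro t
    have e1 : deriv (ff m Q) = ff m ((1 - X ^ 2) * derivative Q - C (m : ℝ) * X * Q) := by
      funext t; exact (hd_ff m Q t).deriv
    rw [e1, (hd_ff m _ t).deriv]
    have hdiv : (m : ℝ) ^ 2 - l * (l + 1) / Real.cosh t ^ 2 =
        (m : ℝ) ^ 2 - l * (l + 1) * (1 - Real.tanh t ^ 2) := by
      rw [← sech_sq]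
      rw [inv_pow, div_eq_mul_inv]
    rw [hdiv]
    unfold ff
    have hE := congrArg (Polynomial.eval (Real.tanh t)) hQ
    simp only [derivative_sub, derivative_mul, derivative_C, derivative_X, derivative_X_pow,
      derivative_one, eval_sub, eval_add, eval_mul, eval_one, eval_pow, eval_X, eval_C, eval_neg,
      eval_zero, zero_sub, zero_mul, zero_add, mul_one] at hE ⊢
    set x := Real.tanh t
    set s := (Real.cosh t)⁻¹
    set A := eval x Q
    set B := eval x (derivative Q)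
    set D := eval x (derivative (derivative Q))
    push_cast
    linear_combination (s ^ m * (1 - x ^ 2)) * hE

end Pool.Agent.L7h56.SB
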