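import Pool.Agent.L7h56.SB.Ode
import Pool.Agent.L7h56.SB.Dec

set_option autoImplicit false

open Set Filter Topology MeasureTheory Polynomial
open scoped Real ContDiff

noncomputable section

namespace Pool.Agent.L7h56.SB

open Pool.Agent.L7h70.SB

lemma cut (η : ℝ) (hη : 0 < η) : ∃ χ : ℝ → ℝ, ContDiff ℝ ∞ χ ∧ (∀ t, |t| ≤ η / 2 → χ t = 1) ∧
    (∀ t, 3 * η / 4 ≤ |t| → χ t = 0) ∧
    ∃ M, 0 ≤ M ∧ ∀ t, |deriv χ t| ≤ M ∧ |deriv (deriv χ) t| ≤ M := by
  let b : ContDiffBump (0 : ℝ) := ⟨η / 2, 3 * η / 4, by positivity, by linarith⟩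
  have hb : ContDiff ℝ ∞ (b : ℝ → ℝ) := b.contDiff
  have hc : HasCompactSupport (b : ℝ → ℝ) := b.hasCompactSupport
  have h1 := cd_deriv hb
  have h2 := cd_deriv h1
  obtain ⟨M1, hM1⟩ := (h1.continuous.norm).bounded_above_of_compact_support
    (hc.deriv.norm)
  obtain ⟨M2, hM2⟩ := (h2.continuous.norm).bounded_above_of_compact_support
    (hc.deriv.deriv.norm)
  refine ⟨b, hb, ?_, ?_, max (max M1 M2) 0, le_max_right _ _, fun t => ⟨?_, ?_⟩⟩
  · intro t ht
    apply b.one_of_mem_closedBall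
    rw [mem_closedBall_zero_iff]
    exact ht
  · intro t ht
    apply b.zero_of_le_dist
    rw [dist_zero_right]
    exact ht
  · have := hM1 t
    rw [Real.norm_eq_abs, Real.norm_eq_abs, abs_abs] at this
    exact this.trans ((le_max_left _ _).trans (le_max_left _ _))
  · have := hM2 t
    rw [Real.norm_eq_abs, Real.norm_eq_abs, abs_abs] at this
    exact this.trans ((le_max_right _ _).trans (le_max_left _ _))

/-- the potential -/
def VV (l m : ℕ) (t : ℝ) : ℝ := (m : ℝ) ^ 2 - l * (l + 1) / Real.cosh t ^ 2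

lemma VV_neg (l m : ℕ) (t : ℝ) : VV l m (-t) = VV l m t := by
  unfold VV
  rw [Real.cosh_neg]

/-- the comparison for a cut off solution -/
lemma cmp (η M K : ℝ) (hη : 0 < η) (hK : 1 ≤ K) (χ f : ℝ → ℝ) (hM0 : 0 ≤ M)
    (hχ : ContDiff ℝ ∞ χ) (hχ1 : ∀ t, |t| ≤ η / 2 → χ t = 1)
    (hχ0 : ∀ t, 3 * η / 4 ≤ |t| → χ t = 0) (hM : ∀ t, |deriv χ t| ≤ M ∧ |deriv (deriv χ) t| ≤ M)
    (hf : ContDiff ℝ ∞ f) (hfB : ∃ B, ∀ t, |f t| ≤ B) (l m : ℕ)
    (hode : ∀ t, deriv (deriv f) t = VV l m t * f t)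
    (hV : ∀ t, η / 8 ≤ t → K ^ 2 ≤ VV l m t) :
    ∫ t, (deriv (deriv fun t => χ t * f t) t - VV l m t * (χ t * f t)) ^ 2 * Real.cosh t ^ 2 ≤
      (8 * M ^ 2 * Real.cosh η ^ 4 / (η / 8) ^ 2) * Real.exp (-2 * K * (η / 8)) *
        ∫ t, (χ t * f t) ^ 2 / Real.cosh t ^ 2 := by
  have hχ' := cd_deriv hχ
  have hχ'' := cd_deriv hχ'
  have hf' := cd_deriv hf
  have hf'' := cd_deriv hf'
  -- the derivative of the product
  have hd1 : deriv (fun t => χ t * f t) = fun t => deriv χ t * f t + χ t * deriv f t := by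
    funext t
    exact ((cd_hd hχ t).mul (cd_hd hf t)).deriv
  have hd2 : ∀ t, deriv (deriv fun t => χ t * f t) t - VV l m t * (χ t * f t) =
      deriv (deriv χ) t * f t + 2 * deriv χ t * deriv f t := by
    intro t
    rw [hd1]
    have := (((cd_hd hχ' t).mul (cd_hd hf t)).add ((cd_hd hχ t).mul (cd_hd hf' t))).deriv
    rw [show deriv (fun t => deriv χ t * f t + χ t * deriv f t) t = _ from this, hode t]
    ring
  simp_rw [hd2]
  set g : ℝ → ℝ := fun t => (deriv (deriv χ) t * f t + 2 * deriv χ t * deriv f t) ^ 2 *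
    Real.cosh t ^ 2 with hg
  have hgc : Continuous g := by
    have h1 := hχ'.continuous
    have h2 := hχ''.continuous
    have h3 := hf.continuous
    have h4 := hf'.continuous
    have h5 := Real.continuous_cosh
    simp only [hg]
    fun_prop
  -- zero near the centre and outside
  have hz1 : ∀ t, |t| < η / 2 → g t = 0 := by
    intro t ht
    have hev : χ =ᶠ[𝓝 t] fun _ => 1 := by
      have : ∀ᶠ s in 𝓝 t, |s| < η / 2 := continuous_abs.continuousAt.eventually_lt_const ht
      filter_upwards [this] with s hs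
      exact hχ1 s hs.le
    have e1 : deriv χ t = 0 := by rw [hev.deriv_eq]; simp
    have e2 : deriv (deriv χ) t = 0 := by rw [hev.deriv.deriv_eq]; simp
    simp [hg, e1, e2]
  have hz2 : ∀ t, 3 * η / 4 < |t| → g t = 0 := by
    intro t ht
    have hev : χ =ᶠ[𝓝 t] fun _ => 0 := by
      have : ∀ᶠ s in 𝓝 t, 3 * η / 4 < |s| := continuous_abs.continuousAt.eventually_const_lt ht
      filter_upwards [this] with s hs
      exact hχ0 s hs.le
    have e1 : deriv χ t = 0 := by rw [hev.deriv_eq]; simp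
    have e2 : deriv (deriv χ) t = 0 := by rw [hev.deriv.deriv_eq]; simp
    simp [hg, e1, e2]
  -- the bound
  have hgb : ∀ t, |t| ≤ η → g t ≤ 8 * M ^ 2 * Real.cosh η ^ 2 * (deriv f t ^ 2 + K ^ 2 * f t ^ 2) := by
    intro t ht
    have h1 : (deriv (deriv χ) t * f t + 2 * deriv χ t * deriv f t) ^ 2 ≤
        8 * M ^ 2 * (deriv f t ^ 2 + K ^ 2 * f t ^ 2) := by
      have a1 : deriv (deriv χ) t ^ 2 ≤ M ^ 2 := by
        rw [← sq_abs]; exact pow_le_pow_left₀ (abs_nonneg _) (hM t).2 2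
      have a2 : deriv χ t ^ 2 ≤ M ^ 2 := by
        rw [← sq_abs]; exact pow_le_pow_left₀ (abs_nonneg _) (hM t).1 2
      have a3 : (1 : ℝ) ≤ K ^ 2 := one_le_pow₀ hK
      have a4 := mul_le_mul_of_nonneg_right a1 (sq_nonneg (f t))
      have a5 := mul_le_mul_of_nonneg_right a2 (sq_nonneg (deriv f t))
      have a6 : M ^ 2 * f t ^ 2 ≤ M ^ 2 * (K ^ 2 * f t ^ 2) := by
        apply mul_le_mul_of_nonneg_left _ (sq_nonneg M)
        nlinarith [sq_nonneg (f t)]
      have a7 : 0 ≤ M ^ 2 * (K ^ 2 * f t ^ 2) := by positivity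
      nlinarith [sq_nonneg (deriv (deriv χ) t * f t - 2 * deriv χ t * deriv f t)]
    have h2 : Real.cosh t ^ 2 ≤ Real.cosh η ^ 2 := by
      apply pow_le_pow_left₀ (Real.cosh_pos t).le
      rw [Real.cosh_le_cosh, abs_of_pos hη]
      exact ht
    have h3 : 0 ≤ 8 * M ^ 2 * (deriv f t ^ 2 + K ^ 2 * f t ^ 2) := by positivity
    calc g t ≤ (8 * M ^ 2 * (deriv f t ^ 2 + K ^ 2 * f t ^ 2)) * Real.cosh η ^ 2 := by
          simp only [hg]
          exact mul_le_mul h1 h2 (sq_nonneg _) h3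
      _ = _ := by ring
  -- the interval integrals
  have hI : ∫ t, g t = ∫ t in (-η)..η, g t := by
    rw [intervalIntegral.integral_of_le (by linarith), ← integral_indicator measurableSet_Ioc]
    congr 1
    funext t
    by_cases ht : t ∈ Ioc (-η) η
    · rw [indicator_of_mem ht]
    · rw [indicator_of_notMem ht]
      apply hz2
      simp only [mem_Ioc, not_and_or, not_lt, not_le] at ht
      rcases ht with ht | ht
      · rw [abs_of_nonpos (by linarith)]; linarith
      · rw [abs_of_pos (by linarith)]; linarith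
  have hii : ∀ a b : ℝ, IntervalIntegrable g volume a b := fun a b => hgc.intervalIntegrable a b
  have hmid : ∫ t in (-(η / 2))..(η / 2), g t = 0 := by
    apply intervalIntegral.integral_zero_ae
    have : ∀ᵐ t : ℝ ∂volume, t ≠ η / 2 := by
      simp [ae_iff, measure_singleton]
    filter_upwards [this] with t ht hm
    rw [uIoc_of_le (by linarith)] at hm
    apply hz1
    rw [abs_lt]
    exact ⟨hm.1, lt_of_le_of_ne hm.2 ht⟩
  have hsplit : ∫ t in (-η)..η, g t = (∫ t in (-η)..(-(η / 2)), g t) + ∫ t in (η / 2)..η, g t := by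
    rw [← intervalIntegral.integral_add_adjacent_intervals (hii (-η) (-(η / 2))) (hii (-(η / 2)) η),
      ← intervalIntegral.integral_add_adjacent_intervals (hii (-(η / 2)) (η / 2)) (hii (η / 2) η),
      hmid, zero_add]
  -- the main estimate for one side
  have hside : ∀ φ : ℝ → ℝ, ContDiff ℝ ∞ φ → (∃ B, ∀ t, |φ t| ≤ B) →
      (∀ t, deriv (deriv φ) t = VV l m t * φ t) →
      ∫ t in (η / 2)..η, (deriv φ t ^ 2 + K ^ 2 * φ t ^ 2) ≤
      Real.exp (-2 * K * (η / 8)) / (2 * (η / 8) ^ 2) * ∫ t in (η / 8)..(η / 4), φ t ^ 2 := by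
    intro φ hφ hφB hφo
    have h := s_DEC φ (VV l m) (η / 8) (η / 8) K (by positivity) (by linarith) hφ hφB
      (fun t ht => ⟨hφo t, hV t ht⟩) η (by linarith)
    have e1 : η / 8 + 3 * (η / 8) = η / 2 := by ring
    have e2 : η / 8 + η / 8 = η / 4 := by ring
    rw [e1, e2] at h
    exact h
  -- comparison with the full integral
  have hFc : Continuous fun t => (χ t * f t) ^ 2 / Real.cosh t ^ 2 := by
    refine ((hχ.continuous.mul hf.continuous).pow 2).div (Real.continuous_cosh.pow 2) ?_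
    intro t
    exact (pow_pos (Real.cosh_pos t) 2).ne'
  have hFs : HasCompactSupport fun t => (χ t * f t) ^ 2 / Real.cosh t ^ 2 := by
    apply HasCompactSupport.of_support_subset_isCompact (isCompact_Icc (a := -η) (b := η))
    intro t ht
    by_contra hn
    apply ht
    have : χ t = 0 := by
      apply hχ0
      simp only [mem_Icc, not_and_or, not_le] at hn
      rcases hn with hn | hn
      · rw [abs_of_nonpos (by linarith)]; linarith
      · rw [abs_of_pos (by linarith)]; linarith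
    simp [this]
  have hFi : Integrable fun t => (χ t * f t) ^ 2 / Real.cosh t ^ 2 :=
    hFc.integrable_of_hasCompactSupport hFs
  set I := ∫ t, (χ t * f t) ^ 2 / Real.cosh t ^ 2 with hIdef
  have hpart : ∀ a b : ℝ, a ≤ b → (∀ t ∈ Icc a b, |t| ≤ η / 2) →
      ∫ t in a..b, f t ^ 2 ≤ Real.cosh η ^ 2 * I := by
    intro a b hab hin
    have h1 : ∫ t in a..b, f t ^ 2 ≤ ∫ t in a..b, Real.cosh η ^ 2 * ((χ t * f t) ^ 2 / Real.cosh t ^ 2) := by
      apply intervalIntegral.integral_mono_on hab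
      · exact (hf.continuous.pow 2).intervalIntegrable _ _
      · exact (continuous_const.mul hFc).intervalIntegrable _ _
      · intro t ht
        rw [hχ1 t (hin t ht), one_mul]
        have h2 : Real.cosh t ^ 2 ≤ Real.cosh η ^ 2 := by
          apply pow_le_pow_left₀ (Real.cosh_pos t).le
          rw [Real.cosh_le_cosh, abs_of_pos hη]
          linarith [hin t ht]
        have h3 : 0 < Real.cosh t ^ 2 := pow_pos (Real.cosh_pos t) 2
        rw [← mul_div_assoc, le_div_iff₀ h3]
        nlinarith [sq_nonneg (f t)]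
    refine h1.trans ?_
    rw [intervalIntegral.integral_const_mul]
    apply mul_le_mul_of_nonneg_left _ (sq_nonneg _)
    rw [intervalIntegral.integral_of_le hab, hIdef]
    apply setIntegral_le_integral hFi
    filter_upwards with t
    positivity
  have hfn : ContDiff ℝ ∞ fun t => f (-t) := hf.comp contDiff_neg
  have hdn : deriv (fun t => f (-t)) = fun t => - deriv f (-t) := by
    funext t
    exact deriv_comp_neg f t
  have hdn2 : ∀ t, deriv (deriv fun t => f (-t)) t = deriv (deriv f) (-t) := by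
    intro t
    rw [hdn]
    rw [deriv.fun_neg, deriv_comp_neg (deriv f) t, neg_neg]
  have hs1 := hside f hf hfB hode
  have hs2 := hside (fun t => f (-t)) hfn (by
      obtain ⟨B, hB⟩ := hfB
      exact ⟨B, fun t => hB (-t)⟩) (by
      intro t
      rw [hdn2, hode, VV_neg])
  have hp1 := hpart (η / 8) (η / 4) (by linarith) (by
    intro t ht
    rw [abs_of_nonneg (by linarith [ht.1])]
    linarith [ht.2])
  have hp2 : ∫ t in (η / 8)..(η / 4), f (-t) ^ 2 ≤ Real.cosh η ^ 2 * I := by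
    have e : ∫ t in (η / 8)..(η / 4), f (-t) ^ 2 = ∫ t in (-(η / 4))..(-(η / 8)), f t ^ 2 :=
      intervalIntegral.integral_comp_neg fun t => f t ^ 2
    rw [e]
    apply hpart _ _ (by linarith)
    intro t ht
    rw [abs_of_nonpos (by linarith [ht.2])]
    linarith [ht.1]
  have hb1 : ∫ t in (η / 2)..η, g t ≤
      8 * M ^ 2 * Real.cosh η ^ 2 * ∫ t in (η / 2)..η, (deriv f t ^ 2 + K ^ 2 * f t ^ 2) := by
    rw [← intervalIntegral.integral_const_mul]
    apply intervalIntegral.integral_mono_on (by linarith) (hii _ _)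
    · apply Continuous.intervalIntegrable
      exact continuous_const.mul ((hf'.continuous.pow 2).add (continuous_const.mul (hf.continuous.pow 2)))
    · intro t ht
      apply hgb
      rw [abs_of_nonneg (by linarith [ht.1])]
      exact ht.2
  have hb2 : ∫ t in (-η)..(-(η / 2)), g t ≤
      8 * M ^ 2 * Real.cosh η ^ 2 * ∫ t in (η / 2)..η, (deriv (fun t => f (-t)) t ^ 2 +
        K ^ 2 * (fun t => f (-t)) t ^ 2) := by
    have e : ∫ t in (-η)..(-(η / 2)), g t = ∫ t in (η / 2)..η, g (-t) :=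
      (intervalIntegral.integral_comp_neg g).symm
    rw [e, ← intervalIntegral.integral_const_mul]
    have hf2 := cd_deriv hfn
    apply intervalIntegral.integral_mono_on (by linarith)
    · exact (hgc.comp continuous_neg).intervalIntegrable _ _
    · apply Continuous.intervalIntegrable
      exact continuous_const.mul ((hf2.continuous.pow 2).add (continuous_const.mul (hfn.continuous.pow 2)))
    · intro t ht
      have := hgb (-t) (by
        rw [abs_neg, abs_of_nonneg (by linarith [ht.1])]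
        exact ht.2)
      rw [hdn]
      simp only [even_two, Even.neg_pow]
      exact this
  rw [hI, hsplit]
  set E := Real.exp (-2 * K * (η / 8)) with hE
  have hE0 : 0 < E := Real.exp_pos _
  have hA : 0 ≤ 8 * M ^ 2 * Real.cosh η ^ 2 := by positivity
  have hq : 0 ≤ E / (2 * (η / 8) ^ 2) := by positivity
  have c1 : ∫ t in (η / 2)..η, g t ≤ 8 * M ^ 2 * Real.cosh η ^ 2 *
      (E / (2 * (η / 8) ^ 2) * (Real.cosh η ^ 2 * I)) :=
    hb1.trans (mul_le_mul_of_nonneg_left (hs1.trans (mul_le_mul_of_nonneg_left hp1 hq)) hA)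
  have c2 : ∫ t in (-η)..(-(η / 2)), g t ≤ 8 * M ^ 2 * Real.cosh η ^ 2 *
      (E / (2 * (η / 8) ^ 2) * (Real.cosh η ^ 2 * I)) :=
    hb2.trans (mul_le_mul_of_nonneg_left (hs2.trans (mul_le_mul_of_nonneg_left hp2 hq)) hA)
  calc _ ≤ 8 * M ^ 2 * Real.cosh η ^ 2 * (E / (2 * (η / 8) ^ 2) * (Real.cosh η ^ 2 * I)) +
      8 * M ^ 2 * Real.cosh η ^ 2 * (E / (2 * (η / 8) ^ 2) * (Real.cosh η ^ 2 * I)) :=
        add_le_add c2 c1
    _ = _ := by
      field_simp
      ring

theorem s_ONE : S_ONE := by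
  intro η hη
  obtain ⟨χ, hχ, hχ1, hχ0, M, hM0, hM⟩ := cut η hη
  set ρ : ℝ := 1 / Real.cosh (η / 8) ^ 2 with hρ
  have hc1 : 1 < Real.cosh (η / 8) := by
    rw [Real.one_lt_cosh]; positivity
  have hc2 : 1 < Real.cosh (η / 8) ^ 2 := one_lt_pow₀ hc1 (by norm_num)
  have hρ1 : ρ < 1 := by
    rw [hρ, div_lt_one (by linarith)]; exact hc2
  have hρ0 : 0 < ρ := by positivity
  set δ : ℝ := 1 - ρ with hδ
  have hδ0 : 0 < δ := by linarith
  have hδ1 : δ < 1 := by linarith
  set κ : ℝ := Real.sqrt (δ / 2) with hκ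
  have hκ0 : 0 < κ := Real.sqrt_pos.2 (by linarith)
  have hκ2 : κ ^ 2 = δ / 2 := Real.sq_sqrt (by linarith)
  set Cc : ℝ := 8 * M ^ 2 * Real.cosh η ^ 4 / (η / 8) ^ 2 with hCc
  have hCc0 : 0 ≤ Cc := by positivity
  refine ⟨δ / 8, Real.exp (-(κ * (η / 8))), by linarith, by linarith, Real.exp_pos _, ?_, ?_⟩
  · rw [Real.exp_lt_one_iff]
    have : 0 < κ * (η / 8) := by positivity
    linarith
  have hlim : Tendsto (fun l : ℕ => Cc * Real.exp (-(κ * (η / 8))) ^ l) atTop (𝓝 0) := by
    have h := tendsto_pow_atTop_nhds_zero_of_lt_one (Real.exp_pos (-(κ * (η / 8)))).le (by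
      rw [Real.exp_lt_one_iff]
      have : 0 < κ * (η / 8) := by positivity
      linarith)
    simpa using h.const_mul Cc
  have hev : ∀ᶠ l : ℕ in atTop, 1 ≤ l ∧ 4 / δ ≤ (l : ℝ) ∧ 1 / κ ≤ (l : ℝ) ∧
      Cc * Real.exp (-(κ * (η / 8))) ^ l ≤ 1 := by
    filter_upwards [eventually_ge_atTop 1, tendsto_natCast_atTop_atTop.eventually_ge_atTop (4 / δ),
      tendsto_natCast_atTop_atTop.eventually_ge_atTop (1 / κ),
      hlim.eventually_le_const (zero_lt_one)] with l h1 h2 h3 h4
    exact ⟨h1, h2, h3, h4⟩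
  obtain ⟨L, hL⟩ := eventually_atTop.1 hev
  refine ⟨L, fun l hl m hm hml => ?_⟩
  obtain ⟨hl1, hl2, hl3, hl4⟩ := hL l hl
  have hl0 : (0 : ℝ) < l := by exact_mod_cast hl1
  have hm0 : (0 : ℝ) < m := by
    refine lt_of_lt_of_le ?_ hm
    apply mul_pos _ hl0
    linarith
  have hm1 : 1 ≤ m := by exact_mod_cast hm0
  obtain ⟨f, hf, hfB, hfn, hode⟩ := s_ODE l m hm1 hml
  have hode' : ∀ t, deriv (deriv f) t = VV l m t * f t := hode
  have hK : 1 ≤ κ * l := by
    rw [div_le_iff₀ hκ0] at hl3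
    linarith
  have hV : ∀ t, η / 8 ≤ t → (κ * l) ^ 2 ≤ VV l m t := by
    intro t ht
    unfold VV
    have h1 : Real.cosh (η / 8) ^ 2 ≤ Real.cosh t ^ 2 := by
      apply pow_le_pow_left₀ (Real.cosh_pos _).le
      rw [Real.cosh_le_cosh, abs_of_pos (by positivity), abs_of_pos (by linarith)]
      exact ht
    have h2 : (l : ℝ) * (l + 1) / Real.cosh t ^ 2 ≤ l * (l + 1) * ρ := by
      rw [hρ, mul_one_div]
      apply div_le_div_of_nonneg_left (by positivity) (by positivity) h1
    have h3 : (1 - δ / 8) ^ 2 * (l : ℝ) ^ 2 ≤ (m : ℝ) ^ 2 := by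
      rw [← mul_pow]
      apply pow_le_pow_left₀ _ hm
      apply mul_nonneg _ hl0.le
      linarith
    have h4 : (l : ℝ) ≤ l ^ 2 * δ / 4 := by
      rw [div_le_iff₀ hδ0] at hl2
      nlinarith
    have h5 : (l : ℝ) * ρ ≤ l := by nlinarith
    rw [mul_pow, hκ2]
    have h6 : (1 - δ / 4) * (l : ℝ) ^ 2 ≤ (1 - δ / 8) ^ 2 * (l : ℝ) ^ 2 := by
      apply mul_le_mul_of_nonneg_right _ (sq_nonneg _)
      nlinarith
    have h7 : (l : ℝ) * (l + 1) * ρ = l ^ 2 * (1 - δ) + l * ρ := by rw [hδ]; ring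
    nlinarith
  have hmain := cmp η M (κ * l) hη hK χ f hM0 hχ hχ1 hχ0 hM hf hfB l m hode' hV
  have hFcd : ContDiff ℝ ∞ fun t => χ t * f t := hχ.mul hf
  have hFc : Continuous fun t => (χ t * f t) ^ 2 / Real.cosh t ^ 2 := by
    refine ((hχ.continuous.mul hf.continuous).pow 2).div (Real.continuous_cosh.pow 2) ?_
    intro t
    exact (pow_pos (Real.cosh_pos t) 2).ne'
  have hsub : tsupport (fun t => χ t * f t) ⊆ Icc (-(3 * η / 4)) (3 * η / 4) := by
    apply closure_minimal _ isClosed_Icc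
    intro t ht
    by_contra hn
    apply ht
    have : χ t = 0 := by
      apply hχ0
      simp only [mem_Icc, not_and_or, not_le] at hn
      rcases hn with hn | hn
      · rw [abs_of_nonpos (by linarith)]; linarith
      · rw [abs_of_pos (by linarith)]; linarith
    simp [this]
  have hFs : HasCompactSupport fun t => (χ t * f t) ^ 2 / Real.cosh t ^ 2 := by
    apply HasCompactSupport.of_support_subset_isCompact
      (isCompact_Icc (a := -(3 * η / 4)) (b := 3 * η / 4))
    intro t ht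
    apply hsub
    apply subset_tsupport
    intro h0
    apply ht
    simp only [h0]
    simp
  have hpos : 0 < ∫ t, (χ t * f t) ^ 2 / Real.cosh t ^ 2 := by
    obtain ⟨t, ht, hft⟩ := hfn 0 (η / 4) (by positivity)
    refine hFc.integral_pos_of_hasCompactSupport_nonneg_nonzero hFs (fun t => by positivity) (x := t) ?_
    have : χ t = 1 := hχ1 t (by rw [abs_of_pos ht.1]; linarith [ht.2])
    rw [this, one_mul]
    have h3 := Real.cosh_pos t
    positivity
  refine ⟨fun t => χ t * f t, hFcd, ?_, hpos, ?_⟩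
  · intro t ht
    have := hsub ht
    exact ⟨by linarith [this.1], by linarith [this.2]⟩
  · refine hmain.trans ?_
    apply mul_le_mul_of_nonneg_right _ hpos.le
    have e1 : Real.exp (-2 * (κ * l) * (η / 8)) =
        Real.exp (-(κ * (η / 8))) ^ l * Real.exp (-(κ * (η / 8))) ^ l := by
      rw [← Real.exp_nat_mul, ← Real.exp_add]
      congr 1
      ring
    rw [e1, ← mul_assoc]
    calc Cc * Real.exp (-(κ * (η / 8))) ^ l * Real.exp (-(κ * (η / 8))) ^ l ≤
        1 * Real.exp (-(κ * (η / 8))) ^ l :=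
          mul_le_mul_of_nonneg_right hl4 (pow_nonneg (Real.exp_pos _).le _)
      _ = _ := one_mul _

end Pool.Agent.L7h56.SB
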